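import Pool.Agent.R90.LT.Defs

/-!
# Final count for MP_ce02af_co
-/

open Set Topology

namespace Pool.Agent.R90.LT

open Pool.Agent.Results.MP_25490b_co.CubicPermutations

theorem core (hTC : S_TC) (hSA : S_SA) (hGEO : S_GEO) (n : ℕ) (hn : 18 ≤ n) :
    ∃ F : Fin n → Set (E 3), (∀ i, IsCompact (F i) ∧ Convex ℝ (F i) ∧ SA 32 2 (F i)) ∧
      (∀ i j, i ≠ j → Disjoint (F i) (F j)) ∧ (n : ℕ∞) ^ 3 ≤ 64 * numComp F := by
  obtain ⟨F, eqv, M, hFdef, hF, hdis, x, v, hv, hmem, i0, i1, h01, hinj⟩ :=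
    hGEO (n / 3) (n % 3) n (by omega) (by omega)
  refine ⟨F, fun i => ⟨(hF i).1, (hF i).2, ?_⟩, hdis, ?_⟩
  · rw [hFdef]
    exact hSA _ _ _ _
  · have h := hTC n F hF hdis _ x v hv hmem i0 i1 h01 hinj
    rw [Fintype.card_prod, Fintype.card_prod, Fintype.card_fin, Fintype.card_fin] at h
    have h2 : n ≤ 4 * (n / 3) := by omega
    have h3 : n ^ 3 ≤ 64 * (n / 3 * (n / 3) * (n / 3 + 1)) := by
      calc n ^ 3 ≤ (4 * (n / 3)) ^ 3 := Nat.pow_le_pow_left h2 3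
        _ = 64 * (n / 3 * (n / 3) * (n / 3)) := by ring
        _ ≤ _ := by gcongr; omega
    calc (n : ℕ∞) ^ 3 = ((n ^ 3 : ℕ) : ℕ∞) := by push_cast; rfl
      _ ≤ ((64 * (n / 3 * (n / 3) * (n / 3 + 1)) : ℕ) : ℕ∞) := by exact_mod_cast h3
      _ = 64 * ((n / 3 * (n / 3) * (n / 3 + 1) : ℕ) : ℕ∞) := by push_cast; rfl
      _ ≤ 64 * numComp F := by gcongr

lemma SA_mono' {s s' D D' : ℕ} (hs : s ≤ s') (hD : D ≤ D') {X : Set (E 3)} (h : SA s D X) :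
    SA s' D' X := by
  obtain ⟨P, z, Φ, hP, hX⟩ := h
  refine ⟨fun k => if hk : (k : ℕ) < s then P ⟨k, hk⟩ else 0,
    fun k => if hk : (k : ℕ) < s then z ⟨k, hk⟩ else False,
    fun f => Φ (fun k => f (Fin.castLE hs k)), ?_, ?_⟩
  · intro k
    by_cases hk : (k : ℕ) < s
    · simp only [hk, dite_true]
      exact (hP _).trans hD
    · simp [hk]
  · rw [hX]
    ext x
    simp

theorem coreC (hTC : S_TC) (hSA : S_SA) (hGEO : S_GEO) (s D n : ℕ) (hs : 32 ≤ s) (hD : 2 ≤ D)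
    (hn : 18 ≤ n) : (n : ℕ∞) ^ 3 ≤ 64 * C s D n := by
  obtain ⟨F, hF, -, h⟩ := core hTC hSA hGEO n hn
  refine h.trans ?_
  gcongr
  exact le_biSup (fun F : Fin n → Set (E 3) => numComp F)
    (show F ∈ {F : Fin n → Set (E 3) | ∀ i, Convex ℝ (F i) ∧ SA s D (F i)} from
      fun i => ⟨(hF i).2.1, SA_mono' hs hD (hF i).2.2⟩)

end Pool.Agent.R90.LT
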