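import Pool.Agent.R90.LT.Defs

/-!
# LT-DIS: the members of the family are pairwise disjoint (MP_ce02af_co)
-/

open Set Topology

namespace Pool.Agent.R90.LT

open Pool.Agent.Results.MP_25490b_co.CubicPermutations

namespace DISaux

lemma mem_L (m r : ℕ) (j : Fin m) (x : E 3) :
    x ∈ G' m r (Sum.inl j) ↔ x 0 = th m j ∧ x 1 ≤ th m j * x 2 + (th m j) ^ 2 - et m ∧
      -1 ≤ x 2 ∧ x 2 ≤ HH m := by
  simp only [G', PS, af, Set.mem_ofPred_eq, Fin.forall_fin_succ, Matrix.cons_val]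
  constructor
  · rintro ⟨h1, h2, h3, h4, -⟩
    simp at h2 h3 h4
    exact ⟨by linarith, by linarith, by linarith, by linarith⟩
  · rintro ⟨h1, h2, h3, h4⟩
    refine ⟨by linarith, ?_, ?_, ?_, fun i => i.elim0⟩
    · simp; linarith
    · simp; linarith
    · simp; linarith

lemma mem_U (m r : ℕ) (i : Fin m) (x : E 3) :
    x ∈ G' m r (Sum.inr (Sum.inl i)) ↔ x 0 = x 2 - 7 * ((i : ℕ) : ℝ) ∧
      (∀ t : Icc (-1 : ℝ) 1, (4 * (t : ℝ) + 7 * ((i : ℕ) : ℝ)) * x 0 - 2 * (t : ℝ) ^ 2 ≤ x 1) ∧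
      -1 ≤ x 2 ∧ x 2 ≤ HH m := by
  simp only [G', PS, af, Set.mem_ofPred_eq, Sum.forall, Sum.elim_inl, Sum.elim_inr,
    Fin.forall_fin_succ (n := 1), Fin.forall_fin_succ (n := 0), Matrix.cons_val]
  constructor
  · rintro ⟨h1, h2, h3, h4, -⟩
    simp at h3 h4
    refine ⟨by linarith, fun t => ?_, by linarith, by linarith⟩
    have := h2 t
    linarith
  · rintro ⟨h1, h2, h3, h4⟩
    refine ⟨by linarith, fun t => ?_, ?_, ?_, fun i => i.elim0⟩
    · have := h2 t
      linarith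
    · simp; linarith
    · simp; linarith

lemma th_pos {m : ℕ} (j : Fin m) : 0 ≤ th m j := by unfold th; positivity

lemma th_le {m : ℕ} (j : Fin m) : th m j ≤ 1 := by
  have h := idx_le j
  have h0 : (0 : ℝ) ≤ ((j : ℕ) : ℝ) := by positivity
  unfold th
  rw [div_le_one (by linarith)]
  exact h

lemma et_pos {m : ℕ} (hm : 1 ≤ m) : 0 < et m := by
  have : (0 : ℝ) < m := by exact_mod_cast hm
  unfold et
  positivity

end DISaux

open DISaux in
/-- LT-DIS -/
theorem dis : S_DIS := by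
  intro m r hm6 e f hne
  have hm : 1 ≤ m := by omega
  have hm0 : (0 : ℝ) < m := by exact_mod_cast hm
  have hH := HH_ge m
  have het := et_pos hm
  have LU : ∀ j i (x : E 3), x ∈ G' m r (Sum.inl j) → x ∈ G' m r (Sum.inr (Sum.inl i)) →
      False := by
    intro j i x h1 h2
    rw [mem_L] at h1
    rw [mem_U] at h2
    have h3 := h2.2.1 ⟨th m j, by linarith [th_pos j], th_le j⟩
    have h4 := h1.2.1
    have h5 : x 2 = th m j + 7 * ((i : ℕ) : ℝ) := by linarith [h1.1, h2.1]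
    simp only at h3
    rw [h5] at h4
    rw [h1.1] at h3
    nlinarith
  have LZ : ∀ j k (x : E 3), x ∈ G' m r (Sum.inl j) →
      x ∈ G' m r (Sum.inr (Sum.inr (Sum.inl k))) → False := by
    intro j k x h1 h2
    rw [mem_L] at h1
    have h2' : x ∈ G m r (Sum.inr (Sum.inr (Sum.inl k))) := h2
    rw [mem_GZ] at h2'
    have h3 := th_le j
    have h5 : x 0 ≤ HH m := by linarith [h1.1]
    have := plate_low hm k h5
    linarith [h1.2.2.1, h2'.1]
  have LW : ∀ j q (x : E 3), x ∈ G' m r (Sum.inl j) →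
      x ∈ G' m r (Sum.inr (Sum.inr (Sum.inr q))) → False := by
    intro j q x h1 h2
    rw [mem_L] at h1
    have h2' : x ∈ G m r (Sum.inr (Sum.inr (Sum.inr q))) := h2
    rw [mem_GW] at h2'
    have h3 := th_le j
    have h5 := HH_le_RM hm
    have h6 : (0:ℝ) ≤ ((q : ℕ) : ℝ) := by positivity
    linarith [h1.1]
  have UZ : ∀ i k (x : E 3), x ∈ G' m r (Sum.inr (Sum.inl i)) →
      x ∈ G' m r (Sum.inr (Sum.inr (Sum.inl k))) → False := by
    intro i k x h1 h2
    rw [mem_U] at h1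
    have h2' : x ∈ G m r (Sum.inr (Sum.inr (Sum.inl k))) := h2
    rw [mem_GZ] at h2'
    have h3 : (0:ℝ) ≤ ((i : ℕ) : ℝ) := by positivity
    have h5 : x 0 ≤ HH m := by linarith [h1.1, h1.2.2.2]
    have := plate_low hm k h5
    linarith [h1.2.2.1, h2'.1]
  have UW : ∀ i q (x : E 3), x ∈ G' m r (Sum.inr (Sum.inl i)) →
      x ∈ G' m r (Sum.inr (Sum.inr (Sum.inr q))) → False := by
    intro i q x h1 h2
    rw [mem_U] at h1
    have h2' : x ∈ G m r (Sum.inr (Sum.inr (Sum.inr q))) := h2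
    rw [mem_GW] at h2'
    have h3 : (0:ℝ) ≤ ((i : ℕ) : ℝ) := by positivity
    have h5 := HH_le_RM hm
    have h6 : (0:ℝ) ≤ ((q : ℕ) : ℝ) := by positivity
    linarith [h1.1, h1.2.2.2]
  have ZW : ∀ k q (x : E 3), x ∈ G m r (Sum.inr (Sum.inr (Sum.inl k))) →
      x ∈ G m r (Sum.inr (Sum.inr (Sum.inr q))) → False := by
    intro k q x h1 h2
    rw [mem_GZ] at h1
    rw [mem_GW] at h2
    have h5 := RR_le_RM hm k
    have h6 : (0:ℝ) ≤ ((q : ℕ) : ℝ) := by positivity
    linarith [(abs_le.mp h1.2).2]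
  rw [Set.disjoint_left]
  intro x hx hy
  rcases e with j | i | k | q <;> rcases f with j' | i' | k' | q'
  · rw [mem_L] at hx hy
    have h1 : th m j = th m j' := by linarith [hx.1, hy.1]
    have h2 : ((j : ℕ) : ℝ) = ((j' : ℕ) : ℝ) := by
      unfold th at h1
      rw [div_left_inj' hm0.ne'] at h1
      linarith
    have h3 : (j : ℕ) = j' := by exact_mod_cast h2
    exact hne (congrArg Sum.inl (Fin.ext h3))
  · exact LU _ _ _ hx hy
  · exact LZ _ _ _ hx hy
  · exact LW _ _ _ hx hy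
  · exact LU _ _ _ hy hx
  · rw [mem_U] at hx hy
    have h2 : ((i : ℕ) : ℝ) = ((i' : ℕ) : ℝ) := by linarith [hx.1, hy.1]
    have h3 : (i : ℕ) = i' := by exact_mod_cast h2
    exact hne (by rw [Fin.ext h3])
  · exact UZ _ _ _ hx hy
  · exact UW _ _ _ hx hy
  · exact LZ _ _ _ hy hx
  · exact UZ _ _ _ hy hx
  · have hx' : x ∈ G m r (Sum.inr (Sum.inr (Sum.inl k))) := hx
    have hy' : x ∈ G m r (Sum.inr (Sum.inr (Sum.inl k'))) := hy
    rcases lt_trichotomy (k : ℕ) k' with h | h | h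
    · exact plates_disjoint hm h x hx' hy'
    · exact hne (by rw [Fin.ext h])
    · exact plates_disjoint hm h x hy' hx'
  · exact ZW _ _ _ hx hy
  · exact LW _ _ _ hy hx
  · exact UW _ _ _ hy hx
  · exact ZW _ _ _ hy hx
  · have hx' : x ∈ G m r (Sum.inr (Sum.inr (Sum.inr q))) := hx
    have hy' : x ∈ G m r (Sum.inr (Sum.inr (Sum.inr q'))) := hy
    rw [mem_GW] at hx' hy'
    have h1 : ((q : ℕ) : ℝ) = ((q' : ℕ) : ℝ) := by linarith
    have h2 : (q : ℕ) = q' := by exact_mod_cast h1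
    exact hne (by rw [Fin.ext h2])

end Pool.Agent.R90.LT
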