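import Pool.Agent.Results.MP_25490b_co.CubicPermutations

/-!
# Components of the space of line transversals (MP_ce02af_co): definitions and pieces
-/

open Set Topology

namespace Pool.Agent.R90.LT

open Pool.Agent.Results.MP_25490b_co.CubicPermutations

/-- Pairs consisting of a point and a nonzero direction in `ℝ³`. -/
abbrev PL : Type := {p : E 3 × E 3 // p.2 ≠ 0}

/-- Two pairs are equivalent if they give the same line. -/
def lineSetoid : Setoid PL where
  r p q := ∃ a t : ℝ, t ≠ 0 ∧ q.1.1 = p.1.1 + a • p.1.2 ∧ q.1.2 = t • p.1.2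
  iseqv := by
    refine ⟨fun p => ⟨0, 1, one_ne_zero, by simp, by simp⟩, ?_, ?_⟩
    · rintro p q ⟨a, t, ht, h1, h2⟩
      refine ⟨-a / t, t⁻¹, inv_ne_zero ht, ?_, ?_⟩
      · rw [h1, h2, smul_smul, div_mul_cancel₀ _ ht]; module
      · rw [h2, smul_smul, inv_mul_cancel₀ ht, one_smul]
    · rintro p q r ⟨a, t, ht, h1, h2⟩ ⟨a', t', ht', h1', h2'⟩
      refine ⟨a + a' * t, t' * t, mul_ne_zero ht' ht, ?_, ?_⟩
      · rw [h1', h1, h2]; module
      · rw [h2', h2, smul_smul]

/-- The space of lines in `ℝ³`, with the quotient topology. -/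
def Line : Type := Quotient lineSetoid

instance : TopologicalSpace Line := inferInstanceAs (TopologicalSpace (Quotient lineSetoid))

/-- The line of a point and a direction. -/
def mkLine (p : PL) : Line := Quotient.mk lineSetoid p

/-- A line meets a set. -/
def meets (l : Line) (X : Set (E 3)) : Prop :=
  ∃ p : PL, mkLine p = l ∧ ∃ a : ℝ, p.1.1 + a • p.1.2 ∈ X

/-- The transversal space. -/
def T {ι : Type} (F : ι → Set (E 3)) : Set Line := {l | ∀ i, meets l (F i)}

/-- The number of connected components of the transversal space. -/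
noncomputable def numComp {ι : Type} (F : ι → Set (E 3)) : ℕ∞ :=
  ENat.card (ConnectedComponents (T F))

/-- Description complexity at most `(s, D)`: a Boolean combination `Φ` of `s` sets, each of the
form `{p = 0}` (if `z k`) or `{p > 0}` (if not `z k`), with `p` a real polynomial of degree at
most `D`. -/
def SA (s D : ℕ) (X : Set (E 3)) : Prop :=
  ∃ (P : Fin s → MvPolynomial (Fin 3) ℝ) (z : Fin s → Prop) (Φ : (Fin s → Prop) → Prop),
    (∀ k, (P k).totalDegree ≤ D) ∧
    X = {x : E 3 | Φ fun k => (z k ∧ MvPolynomial.eval (fun i => x i) (P k) = 0) ∨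
      (¬ z k ∧ 0 < MvPolynomial.eval (fun i => x i) (P k))}

/-- The maximal number of components for families of `n` convex sets of description complexity
at most `(s, D)`. -/
noncomputable def C (s D n : ℕ) : ℕ∞ :=
  ⨆ F ∈ {F : Fin n → Set (E 3) | ∀ i, Convex ℝ (F i) ∧ SA s D (F i)}, numComp F

/-! ## The family -/

/-- `θ_j = (j+1)/m` -/
noncomputable def th (m j : ℕ) : ℝ := ((j : ℝ) + 1) / m

/-- `η = 1/(8 m²)` -/
noncomputable def et (m : ℕ) : ℝ := 1 / (8 * (m : ℝ) ^ 2)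

/-- The family: lower half-planes, upper regions (bounded by Huber curves), long plates, walls. -/
noncomputable def G' (m r : ℕ) : Idx m r → Set (E 3)
  | Sum.inl j => PS ![1, 0, 0, -th m j]
      ![![0, 1, -th m j, -(th m j) ^ 2 + et m], ![0, 0, -1, -1], ![0, 0, 1, -HH m]]
  | Sum.inr (Sum.inl i) => PS ![1, 0, -1, 7 * ((i : ℕ) : ℝ)]
      (Sum.elim (fun t : Icc (-1 : ℝ) 1 => ![4 * (t : ℝ) + 7 * ((i : ℕ) : ℝ), -1, 0,
        -2 * (t : ℝ) ^ 2]) ![![0, 0, -1, -1], ![0, 0, 1, -HH m]])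
  | Sum.inr (Sum.inr z) => G m r (Sum.inr (Sum.inr z))

/-! ## The lines -/

/-- `x* = (j + 1/2)/m` -/
noncomputable def xs (m j : ℕ) : ℝ := ((j : ℝ) + 1 / 2) / m

/-- `e = 7 i + x*` -/
noncomputable def ee (m i j : ℕ) : ℝ := 7 * (i : ℝ) + xs m j

/-- base point of the line -/
noncomputable def bp' (m i j : ℕ) : E 3 := !₂[0, -(xs m j) ^ 2 + et m, ee m i j]

/-- direction of the line -/
noncomputable def dv' (m i j l : ℕ) : E 3 := !₂[1, ee m i j + 2 * xs m j, sl m l]

/-- parameter at which the line meets the given piece -/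
noncomputable def al' (m r i j l : ℕ) : Idx m r → ℝ
  | Sum.inl j' => th m j'
  | Sum.inr (Sum.inl i') => (ee m i j - 7 * ((i' : ℕ) : ℝ)) / (1 - sl m l)
  | Sum.inr (Sum.inr (Sum.inl k)) => -(EE m k + ee m i j) / (sl m l - (((k : ℕ) : ℝ) + 1) * gg m)
  | Sum.inr (Sum.inr (Sum.inr q)) => RM m + 1 + ((q : ℕ) : ℝ)

/-! ## Statements of the pieces -/

/-- DIS: the members of the family are pairwise disjoint. -/
def S_DIS : Prop :=
  ∀ (m r : ℕ), 6 ≤ m → ∀ e f : Idx m r, e ≠ f → Disjoint (G' m r e) (G' m r f)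

/-- HIT: the line `(i, j, l)` meets every member, at a unique parameter. -/
def S_HIT : Prop :=
  ∀ (m r i j l : ℕ), 6 ≤ m → i < m → j < m → l ≤ m → ∀ e : Idx m r,
    bp' m i j + al' m r i j l e • dv' m i j l ∈ G' m r e ∧
    ∀ a : ℝ, bp' m i j + a • dv' m i j l ∈ G' m r e → a = al' m r i j l e

/-- TC: transversals inducing different orders are in different components. -/
def S_TC : Prop :=
  ∀ (n : ℕ) (F : Fin n → Set (E 3)), (∀ i, IsCompact (F i) ∧ Convex ℝ (F i)) →
    (∀ i j, i ≠ j → Disjoint (F i) (F j)) → ∀ (κ : Type) [Fintype κ] (x v : κ → E 3),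
    (∀ k, v k ≠ 0) → (∀ k i, ∃ a : ℝ, x k + a • v k ∈ F i) → ∀ (i0 i1 : Fin n),
    (∀ k, ord F (x k) (v k) i0 i1) →
    (∀ k k', ord F (x k) (v k) = ord F (x k') (v k') → k = k') →
    (Fintype.card κ : ℕ∞) ≤ numComp F

/-- SA: the members of the family have constant description complexity. -/
def S_SA : Prop := ∀ (m r : ℕ) (e : Idx m r) (M : ℝ), SA 32 2 (G' m r e ∩ Box M)

/-- GEO: the geometric part. -/
def S_GEO : Prop :=
  ∀ (m r n : ℕ), 6 ≤ m → n = 3 * m + r → ∃ (F : Fin n → Set (E 3)) (eqv : Fin n ≃ Idx m r)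
    (M : ℝ), (∀ i, F i = G' m r (eqv i) ∩ Box M) ∧ (∀ i, IsCompact (F i) ∧ Convex ℝ (F i)) ∧
    (∀ i j, i ≠ j → Disjoint (F i) (F j)) ∧
    ∃ (x v : ((Fin m × Fin m) × Fin (m + 1)) → E 3), (∀ k, v k ≠ 0) ∧
      (∀ k i, ∃ a : ℝ, x k + a • v k ∈ F i) ∧ ∃ (i0 i1 : Fin n),
      (∀ k, ord F (x k) (v k) i0 i1) ∧
      (∀ k k', ord F (x k) (v k) = ord F (x k') (v k') → k = k')

end Pool.Agent.R90.LT
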