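import Pool.Agent.R90.LT.Defs

/-!
# Assembly of the geometric part of MP_ce02af_co
-/

open Set Topology

namespace Pool.Agent.R90.LT

open Pool.Agent.Results.MP_25490b_co.CubicPermutations

namespace GeoAux

lemma isClosed_G' (m r : ℕ) (e : Idx m r) : IsClosed (G' m r e) := by
  rcases e with j | i | z
  · exact isClosed_PS _ _
  · exact isClosed_PS _ _
  · exact isClosed_G m r _

lemma convex_G' (m r : ℕ) (e : Idx m r) : Convex ℝ (G' m r e) := by
  rcases e with j | i | z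
  · exact convex_PS _ _
  · exact convex_PS _ _
  · exact convex_G m r _

lemma dv'_ne (m i j l : ℕ) : dv' m i j l ≠ 0 := by
  intro h
  have := congrArg (fun x : E 3 => x 0) h
  simp [dv'] at this

lemma xs_pos {m j : ℕ} (hm : 1 ≤ m) : 0 < xs m j := by
  have : (0:ℝ) < m := by exact_mod_cast hm
  unfold xs; positivity

lemma xs_lt {m j j' : ℕ} (hm : 1 ≤ m) (h : j < j') : xs m j + 1 / m ≤ xs m j' := by
  have : (0:ℝ) < m := by exact_mod_cast hm
  have h' : (j : ℝ) + 1 ≤ j' := by exact_mod_cast h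
  unfold xs
  rw [← add_div]
  apply div_le_div_of_nonneg_right _ this.le
  linarith

end GeoAux

open GeoAux

theorem geo (hDIS : S_DIS) (hHIT : S_HIT) : S_GEO := by
  classical
  intro m r n hm hn
  have hm1 : 1 ≤ m := by omega
  have hcard : Fintype.card (Fin n) = Fintype.card (Idx m r) := by
    rw [card_Idx, Fintype.card_fin, hn]
  obtain ⟨eqv⟩ : Nonempty (Fin n ≃ Idx m r) := ⟨Fintype.equivOfCardEq hcard⟩
  -- a common box
  obtain ⟨M, hM⟩ := (Set.finite_range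
    (fun z : ((Fin m × Fin m) × Fin (m + 1)) × Idx m r × Fin 3 =>
      |(bp' m z.1.1.1 z.1.1.2 + al' m r z.1.1.1 z.1.1.2 z.1.2 z.2.1 •
        dv' m z.1.1.1 z.1.1.2 z.1.2) z.2.2|)).bddAbove
  have hbox : ∀ (k : (Fin m × Fin m) × Fin (m + 1)) (e : Idx m r),
      bp' m k.1.1 k.1.2 + al' m r k.1.1 k.1.2 k.2 e • dv' m k.1.1 k.1.2 k.2 ∈ Box M := by
    intro k e i
    exact hM ⟨(k, e, i), rfl⟩
  -- the family
  obtain ⟨F, hFdef⟩ : ∃ F : Fin n → Set (E 3), ∀ i, F i = G' m r (eqv i) ∩ Box M :=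
    ⟨_, fun _ => rfl⟩
  have hF : ∀ i, IsCompact (F i) ∧ Convex ℝ (F i) := by
    intro i
    rw [hFdef]
    exact ⟨(isCompact_Box M).inter_left (isClosed_G' m r _),
      (convex_G' m r _).inter (convex_Box M)⟩
  have hdis : ∀ i j, i ≠ j → Disjoint (F i) (F j) := by
    intro i j hij
    rw [hFdef, hFdef]
    exact (hDIS m r hm _ _ (fun h => hij (eqv.injective h))).mono
      Set.inter_subset_left Set.inter_subset_left
  have hhit : ∀ (k : (Fin m × Fin m) × Fin (m + 1)) (e : Idx m r),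
      bp' m k.1.1 k.1.2 + al' m r k.1.1 k.1.2 k.2 e • dv' m k.1.1 k.1.2 k.2 ∈ G' m r e ∧
      ∀ a : ℝ, bp' m k.1.1 k.1.2 + a • dv' m k.1.1 k.1.2 k.2 ∈ G' m r e →
        a = al' m r k.1.1 k.1.2 k.2 e := by
    intro k e
    exact hHIT m r k.1.1 k.1.2 k.2 hm k.1.1.2 k.1.2.2 (Nat.lt_succ_iff.mp k.2.2) e
  have hmem : ∀ (k : (Fin m × Fin m) × Fin (m + 1)) (i : Fin n),
      bp' m k.1.1 k.1.2 + al' m r k.1.1 k.1.2 k.2 (eqv i) • dv' m k.1.1 k.1.2 k.2 ∈ F i := by
    intro k i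
    rw [hFdef]
    exact ⟨(hhit k _).1, hbox k _⟩
  have hord : ∀ (k : (Fin m × Fin m) × Fin (m + 1)) (i j : Fin n),
      (ord F (bp' m k.1.1 k.1.2) (dv' m k.1.1 k.1.2 k.2) i j ↔
        i ≠ j ∧ al' m r k.1.1 k.1.2 k.2 (eqv i) < al' m r k.1.1 k.1.2 k.2 (eqv j)) := by
    intro k i j
    constructor
    · rintro ⟨hij, a, b, hab, ha, hb⟩
      rw [hFdef] at ha hb
      rw [← (hhit k _).2 _ ha.1, ← (hhit k _).2 _ hb.1]
      exact ⟨hij, hab⟩
    · rintro ⟨hij, h⟩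
      exact ⟨hij, _, _, h, hmem k i, hmem k j⟩
  have hmR : (6:ℝ) ≤ m := by exact_mod_cast hm
  have hm0 : (0:ℝ) < m := by linarith
  have hH := HH_ge m
  have hg := gg_pos m
  -- small slopes
  have hsmall : ∀ l : ℕ, l ≤ m → sl m l * m ≤ 1 / 1000 := by
    intro l hl
    have h1 := sl_le_small hl
    have h2 := sl_pos m l
    have h3 : (m:ℝ) ≤ (HH m) ^ 2 := by
      have := m_le_HH m
      nlinarith
    have := mul_le_mul_of_nonneg_left h3 h2.le
    linarith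
  have key1 : ∀ (k k' : (Fin m × Fin m) × Fin (m + 1)),
      ((k.1.1 : ℕ) < k'.1.1 ∨ ((k.1.1 : ℕ) = k'.1.1 ∧ (k.1.2 : ℕ) < k'.1.2)) →
      ord F (bp' m k.1.1 k.1.2) (dv' m k.1.1 k.1.2 k.2) =
        ord F (bp' m k'.1.1 k'.1.2) (dv' m k'.1.1 k'.1.2 k'.2) →
      False := by
    rintro ⟨⟨i, j⟩, l⟩ ⟨⟨i', j'⟩, l'⟩ hkk heq
    have hl : (l : ℕ) ≤ m := Nat.lt_succ_iff.mp l.2
    have hl' : (l' : ℕ) ≤ m := Nat.lt_succ_iff.mp l'.2
    obtain ⟨U, hU⟩ : ∃ U : Fin n, eqv U = Sum.inr (Sum.inl i) :=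
      ⟨eqv.symm _, eqv.apply_symm_apply _⟩
    obtain ⟨L, hL⟩ : ∃ L : Fin n, eqv L = Sum.inl j :=
      ⟨eqv.symm _, eqv.apply_symm_apply _⟩
    have hUL : U ≠ L := by
      intro h
      rw [h, hL] at hU
      exact absurd hU (by simp)
    have hjm : ((j : ℕ) : ℝ) + 1 ≤ m := idx_le j
    have hj0 : (0:ℝ) ≤ ((j : ℕ) : ℝ) := by positivity
    have h1 : ord F (bp' m i j) (dv' m i j l) U L := by
      rw [hord ((i, j), l), hU, hL]
      refine ⟨hUL, ?_⟩
      simp only [al', ee, xs, th]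
      have hs := sl_le_one hl
      have hs0 := sl_pos m l
      rw [div_lt_iff₀ (by linarith)]
      have h2 := hsmall l hl
      have h4 : sl m l * (((j : ℕ) : ℝ) + 1) ≤ sl m l * m :=
        mul_le_mul_of_nonneg_left hjm hs0.le
      have e1 : 7 * ((i : ℕ) : ℝ) + (((j : ℕ) : ℝ) + 1 / 2) / m - 7 * ((i : ℕ) : ℝ) =
          (((j : ℕ) : ℝ) + 1 / 2) / m := by ring
      have e2 : (((j : ℕ) : ℝ) + 1) / m * (1 - sl m l) =
          ((((j : ℕ) : ℝ) + 1) * (1 - sl m l)) / m := by ring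
      rw [e1, e2]
      apply div_lt_div_of_pos_right _ hm0
      nlinarith
    have h1' : ord F (bp' m i' j') (dv' m i' j' l') U L := by
      have : ord F (bp' m i j) (dv' m i j l) = ord F (bp' m i' j') (dv' m i' j' l') := heq
      rw [← this]; exact h1
    rw [hord ((i', j'), l'), hU, hL] at h1'
    obtain ⟨-, h2⟩ := h1'
    simp only [al'] at h2
    have hs := sl_le_one hl'
    have hs0 := sl_pos m l'
    rw [div_lt_iff₀ (by linarith)] at h2
    have hth1 : th m j ≤ 1 := by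
      unfold th; rw [div_le_one hm0]; exact hjm
    have hth0 : 0 < th m j := by unfold th; positivity
    have h3 : th m j * (1 - sl m l') ≤ th m j := by nlinarith
    have h4 : ee m i' j' - 7 * ((i : ℕ) : ℝ) < th m j := lt_of_lt_of_le h2 h3
    rcases hkk with hkk | ⟨hkk, hkj⟩
    · have h5 : ((i : ℕ) : ℝ) + 1 ≤ ((i' : ℕ) : ℝ) := by exact_mod_cast hkk
      have h6 := xs_pos (m := m) (j := j') hm1
      unfold ee at h4
      linarith
    · have h5 : ((i : ℕ) : ℝ) = ((i' : ℕ) : ℝ) := by exact_mod_cast hkk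
      have h6 := xs_lt hm1 hkj
      unfold ee at h4
      rw [h5] at h4
      have h7 : th m j = xs m j + 1 / 2 / m := by unfold th xs; rw [← add_div]; ring_nf
      have h8 : (1:ℝ) / 2 / m ≤ 1 / m := by
        apply div_le_div_of_nonneg_right _ hm0.le
        norm_num
      linarith
  have key2 : ∀ (k k' : (Fin m × Fin m) × Fin (m + 1)), k.1 = k'.1 → (k.2 : ℕ) < k'.2 →
      ord F (bp' m k.1.1 k.1.2) (dv' m k.1.1 k.1.2 k.2) =
        ord F (bp' m k'.1.1 k'.1.2) (dv' m k'.1.1 k'.1.2 k'.2) →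
      False := by
    rintro ⟨⟨i, j⟩, l⟩ ⟨⟨i', j'⟩, l'⟩ hk hll heq
    simp only [Prod.mk.injEq] at hk
    obtain ⟨rfl, rfl⟩ := hk
    simp only at hll
    have hl' : (l' : ℕ) ≤ m := Nat.lt_succ_iff.mp l'.2
    have hl : (l : ℕ) ≤ m := Nat.lt_succ_iff.mp l.2
    have hlm : (l : ℕ) < m := by omega
    obtain ⟨Z, hZ⟩ : ∃ Z : Fin n, eqv Z = Sum.inr (Sum.inr (Sum.inl ⟨l, hlm⟩)) :=
      ⟨eqv.symm _, eqv.apply_symm_apply _⟩
    obtain ⟨L, hL⟩ : ∃ L : Fin n, eqv L = Sum.inl ⟨0, by omega⟩ :=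
      ⟨eqv.symm _, eqv.apply_symm_apply _⟩
    have hLZ : L ≠ Z := by
      intro h
      rw [← h, hL] at hZ
      exact absurd hZ (by simp)
    have hE := EE_ge hm1 (l : ℕ)
    have hc : 0 < ee m i j := by
      have := xs_pos (m := m) (j := (j : ℕ)) hm1
      unfold ee; positivity
    have hth1 : th m 0 ≤ 1 := by
      unfold th; rw [div_le_one hm0]; push_cast; linarith
    have hth0 : 0 < th m 0 := by unfold th; positivity
    have h1 : ord F (bp' m i j) (dv' m i j l) L Z := by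
      rw [hord ((i, j), l), hL, hZ]
      refine ⟨hLZ, ?_⟩
      simp only [al']
      have e1 : sl m l - (((l : ℕ) : ℝ) + 1) * gg m = -(gg m / 2) := by unfold sl; ring
      rw [e1, neg_div_neg_eq, lt_div_iff₀ (by linarith)]
      have e2 : gg m ≤ 1 := by
        have := sl_le_one (m := m) (l := 0) (by omega)
        unfold sl at this
        push_cast at this
        linarith
      nlinarith
    have h1' : ord F (bp' m i j) (dv' m i j l') L Z := by
      have : ord F (bp' m i j) (dv' m i j l) = ord F (bp' m i j) (dv' m i j l') := heq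
      rw [← this]; exact h1
    rw [hord ((i, j), l'), hL, hZ] at h1'
    obtain ⟨-, h2⟩ := h1'
    simp only [al'] at h2
    have e3 : ((l : ℕ) : ℝ) + 1 ≤ ((l' : ℕ) : ℝ) := by exact_mod_cast hll
    have e4 : 0 < sl m l' - (((l : ℕ) : ℝ) + 1) * gg m := by
      have : sl m l' - (((l : ℕ) : ℝ) + 1) * gg m =
          (((l' : ℕ) : ℝ) + 1 / 2 - (((l : ℕ) : ℝ) + 1)) * gg m := by
        unfold sl; ring
      rw [this]
      apply mul_pos _ hg
      linarith
    rw [lt_div_iff₀ e4] at h2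
    have : 0 < th m 0 * (sl m l' - (((l : ℕ) : ℝ) + 1) * gg m) := mul_pos hth0 e4
    linarith
  obtain ⟨i0, hi0⟩ : ∃ i0 : Fin n, eqv i0 = Sum.inl ⟨0, by omega⟩ :=
    ⟨eqv.symm _, eqv.apply_symm_apply _⟩
  obtain ⟨i1, hi1⟩ : ∃ i1 : Fin n, eqv i1 = Sum.inl ⟨1, by omega⟩ :=
    ⟨eqv.symm _, eqv.apply_symm_apply _⟩
  have h01 : i0 ≠ i1 := by
    intro h
    rw [h, hi1] at hi0
    simp at hi0
  refine ⟨F, eqv, M, hFdef, hF, hdis, fun k => bp' m k.1.1 k.1.2,
    fun k => dv' m k.1.1 k.1.2 k.2, fun k => dv'_ne _ _ _ _, fun k i => ⟨_, hmem k i⟩,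
    i0, i1, ?_, ?_⟩
  · intro k
    rw [hord k, hi0, hi1]
    refine ⟨h01, ?_⟩
    simp only [al', th]
    apply div_lt_div_of_pos_right _ hm0
    norm_num
  · intro k k' h
    have e11 : (k.1.1 : ℕ) = k'.1.1 := by
      rcases lt_trichotomy (k.1.1 : ℕ) k'.1.1 with hlt | heq | hlt
      · exact (key1 _ _ (Or.inl hlt) h).elim
      · exact heq
      · exact (key1 _ _ (Or.inl hlt) h.symm).elim
    have e12 : (k.1.2 : ℕ) = k'.1.2 := by
      rcases lt_trichotomy (k.1.2 : ℕ) k'.1.2 with hlt | heq | hlt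
      · exact (key1 _ _ (Or.inr ⟨e11, hlt⟩) h).elim
      · exact heq
      · exact (key1 _ _ (Or.inr ⟨e11.symm, hlt⟩) h.symm).elim
    have e1 : k.1 = k'.1 := Prod.ext (Fin.ext e11) (Fin.ext e12)
    have e2 : (k.2 : ℕ) = k'.2 := by
      rcases lt_trichotomy (k.2 : ℕ) k'.2 with hlt | heq | hlt
      · exact (key2 _ _ e1 hlt h).elim
      · exact heq
      · exact (key2 _ _ e1.symm hlt h.symm).elim
    exact Prod.ext e1 (Fin.ext e2)

end Pool.Agent.R90.LT
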