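import Pool.Agent.R90.LT.Defs

/-!
# Piece HIT: the line `(i, j, l)` meets every member, at a unique parameter
-/

open Set Topology

namespace Pool.Agent.R90.LT

open Pool.Agent.Results.MP_25490b_co.CubicPermutations

namespace HitAux

lemma q0 (m i j l : ℕ) (a : ℝ) : (bp' m i j + a • dv' m i j l) 0 = a := by simp [bp', dv']

lemma q1 (m i j l : ℕ) (a : ℝ) : (bp' m i j + a • dv' m i j l) 1 =
    -(xs m j) ^ 2 + et m + (ee m i j + 2 * xs m j) * a := by simp [bp', dv']; ring

lemma q2 (m i j l : ℕ) (a : ℝ) : (bp' m i j + a • dv' m i j l) 2 = ee m i j + sl m l * a := by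
  simp [bp', dv']; ring

lemma mem_L (m r : ℕ) (j : Fin m) (x : E 3) :
    x ∈ G' m r (Sum.inl j) ↔ x 0 = th m j ∧ x 1 ≤ th m j * x 2 + (th m j) ^ 2 - et m ∧
      -1 ≤ x 2 ∧ x 2 ≤ HH m := by
  simp only [G', PS, af, Set.mem_ofPred_eq, Fin.forall_fin_succ, Matrix.cons_val]
  constructor
  · rintro ⟨h1, h2, h3, h4, -⟩
    simp at h2 h3 h4
    exact ⟨by linarith, by linarith, by linarith, by linarith⟩
  · rintro ⟨h1, h2, h3, h4⟩
    refine ⟨by linarith, ?_, ?_, ?_, fun i => i.elim0⟩
    · simp; linarith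
    · simp; linarith
    · simp; linarith

lemma mem_U (m r : ℕ) (i : Fin m) (x : E 3) :
    x ∈ G' m r (Sum.inr (Sum.inl i)) ↔ x 0 = x 2 - 7 * ((i : ℕ) : ℝ) ∧
      (∀ t : ℝ, -1 ≤ t → t ≤ 1 → (4 * t + 7 * ((i : ℕ) : ℝ)) * x 0 - 2 * t ^ 2 ≤ x 1) ∧
      -1 ≤ x 2 ∧ x 2 ≤ HH m := by
  simp only [G', PS, af, Set.mem_ofPred_eq, Sum.forall, Sum.elim_inl, Sum.elim_inr,
    Fin.forall_fin_succ (n := 1), Fin.forall_fin_succ (n := 0), Matrix.cons_val]
  constructor
  · rintro ⟨h1, h2, h3, h4, -⟩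
    simp at h3 h4
    refine ⟨by linarith, ?_, by linarith, by linarith⟩
    intro t ht1 ht2
    have := h2 ⟨t, ht1, ht2⟩
    simp only at this
    linarith
  · rintro ⟨h1, h2, h3, h4⟩
    refine ⟨by linarith, ?_, ?_, ?_, fun i => i.elim0⟩
    · rintro ⟨t, ht1, ht2⟩
      have := h2 t ht1 ht2
      simp only
      linarith
    · simp; linarith
    · simp; linarith

lemma xs_pos {m : ℕ} (hm : 6 ≤ m) (j : ℕ) : 0 < xs m j := by
  have : (6 : ℝ) ≤ m := by exact_mod_cast hm
  unfold xs; positivity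

lemma xs_lt {m j : ℕ} (hm : 6 ≤ m) (hj : j < m) : xs m j < 1 := by
  have h1 : (6 : ℝ) ≤ m := by exact_mod_cast hm
  have h2 : (j : ℝ) + 1 ≤ m := by exact_mod_cast hj
  unfold xs
  rw [div_lt_one (by linarith)]
  linarith

lemma ee_pos {m : ℕ} (hm : 6 ≤ m) (i j : ℕ) : 0 < ee m i j := by
  have := xs_pos hm j
  unfold ee; positivity

lemma ee_lt {m i j : ℕ} (hm : 6 ≤ m) (hi : i < m) (hj : j < m) : ee m i j < 7 * (m : ℝ) - 6 := by
  have h1 := xs_lt hm hj
  have h2 : (i : ℝ) + 1 ≤ m := by exact_mod_cast hi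
  unfold ee
  linarith

lemma HH_big {m : ℕ} (hm : 6 ≤ m) : 7 * (m : ℝ) - 5 ≤ HH m := by
  have h1 : (6 : ℝ) ≤ m := by exact_mod_cast hm
  unfold HH
  nlinarith

lemma s_small {m l : ℕ} (hm : 6 ≤ m) (hl : l ≤ m) : sl m l * (m : ℝ) ^ 2 ≤ 1 / 38000 := by
  have h1 : (6 : ℝ) ≤ m := by exact_mod_cast hm
  have h2 := sl_le_small hl
  have h3 := sl_pos m l
  have h4 : 38 * (m : ℝ) ^ 2 ≤ (HH m) ^ 2 := by
    unfold HH
    nlinarith [sq_nonneg ((m : ℝ) ^ 2 - 36)]
  have h5 := mul_le_mul_of_nonneg_left h4 h3.le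
  linarith

/-- the line meets every piece -/
lemma hit1 {m r i j l : ℕ} (hm : 6 ≤ m) (hi : i < m) (hj : j < m) (hl : l ≤ m) (e : Idx m r) :
    bp' m i j + al' m r i j l e • dv' m i j l ∈ G' m r e := by
  have hs0 := sl_pos m l
  have hs1 := sl_le_one hl
  have hs2 := sl_le_small hl
  have hs3 := s_small hm hl
  have hX0 := xs_pos hm j
  have hX1 := xs_lt hm hj
  have he0 := ee_pos hm i j
  have he1 := ee_lt hm hi hj
  have hH := HH_big hm
  have hm1 : (6 : ℝ) ≤ m := by exact_mod_cast hm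
  have hm0 : (0 : ℝ) < m := by linarith
  have het : et m = 1 / (8 * (m : ℝ) ^ 2) := rfl
  have het0 : 0 < et m := by rw [het]; positivity
  have hee : ee m i j = 7 * (i : ℝ) + xs m j := rfl
  have hxs : xs m j = ((j : ℝ) + 1 / 2) / m := rfl
  rcases e with j' | i' | k' | q
  · rw [mem_L, q0, q1, q2]
    simp only [al']
    have hth0 : 0 < th m (j' : ℕ) := by unfold th; positivity
    have hth1 : th m (j' : ℕ) ≤ 1 := by
      unfold th
      rw [div_le_one hm0]
      exact idx_le j'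
    have hthd : th m (j' : ℕ) = (((j' : ℕ) : ℝ) + 1) / m := rfl
    set X := xs m j
    set t := th m (j' : ℕ)
    set s := sl m l
    set ε := ee m i j
    have hdist : 2 * et m ≤ (t - X) ^ 2 := by
      have e1 : t - X = ((((j' : ℕ) : ℤ) - (j : ℤ) : ℤ) + 1 / 2 : ℝ) / m := by
        rw [hthd, hxs]; push_cast; field_simp; ring
      have h1 := half_le_abs (((j' : ℕ) : ℤ) - (j : ℤ))
      have h2 : (1 / 2 : ℝ) ^ 2 ≤ ((((j' : ℕ) : ℤ) - (j : ℤ) : ℤ) + 1 / 2 : ℝ) ^ 2 := by
        rw [← sq_abs ((((j' : ℕ) : ℤ) - (j : ℤ) : ℤ) + 1 / 2 : ℝ)]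
        exact pow_le_pow_left₀ (by norm_num) h1 2
      rw [e1, div_pow, het]
      rw [show (2 : ℝ) * (1 / (8 * (m : ℝ) ^ 2)) = (1 / 2) ^ 2 / (m : ℝ) ^ 2 by field_simp; norm_num]
      exact div_le_div_of_nonneg_right h2 (by positivity)
    have hst : 0 < s * t := by positivity
    have hst1 : s * t ≤ 1 := by
      have : s * t ≤ s * 1 := mul_le_mul_of_nonneg_left hth1 hs0.le
      linarith
    have hstt : 0 < s * t ^ 2 := by positivity
    refine ⟨trivial, ?_, by linarith, by linarith⟩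
    have e2 : (t - X) ^ 2 = t ^ 2 - 2 * (t * X) + X ^ 2 := by ring
    have e3 : (ε + 2 * X) * t = ε * t + 2 * (t * X) := by ring
    have e4 : t * (ε + s * t) = ε * t + s * t ^ 2 := by ring
    rw [e2] at hdist
    rw [e3, e4]
    linarith
  · rw [mem_U, q0, q1, q2]
    simp only [al']
    have hi' := idx_le i'
    have hi0 : (0 : ℝ) ≤ ((i' : ℕ) : ℝ) := by positivity
    obtain ⟨τ, hτ⟩ : ∃ τ, τ = 7 * ((i' : ℕ) : ℝ) := ⟨_, rfl⟩
    rw [← hτ]
    set X := xs m j
    set s := sl m l
    set ε := ee m i j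
    obtain ⟨a, ha⟩ : ∃ a, a = (ε - τ) / (1 - s) := ⟨_, rfl⟩
    rw [← ha]
    have h1s : 0 < 1 - s := by linarith
    have ha1 : a * (1 - s) = ε - τ := by rw [ha, div_mul_cancel₀ _ h1s.ne']
    have habs1 : |a| * (1 - s) = |ε - τ| := by rw [← ha1, abs_mul, abs_of_pos h1s]
    have hετ : |ε - τ| ≤ 7 * m := by
      rw [abs_le]
      constructor <;> linarith
    have ha0 : 0 ≤ |a| := abs_nonneg a
    have habs2 : |a| ≤ 14 * m := by
      have : |a| * (1 / 2) ≤ |a| * (1 - s) := mul_le_mul_of_nonneg_left (by linarith) ha0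
      linarith
    have hsa : |s * a| ≤ 1 := by
      rw [abs_mul, abs_of_pos hs0]
      have h1 : s * |a| ≤ s * (14 * m) := mul_le_mul_of_nonneg_left habs2 hs0.le
      have h2 : s * (14 * m) ≤ 14 * (s * (m : ℝ) ^ 2) := by
        have hmm : (m : ℝ) ≤ (m : ℝ) ^ 2 := by
          rw [pow_two]; exact le_mul_of_one_le_right hm0.le (by linarith)
        have : s * (m : ℝ) ≤ s * (m : ℝ) ^ 2 := mul_le_mul_of_nonneg_left hmm hs0.le
        linarith
      linarith
    obtain ⟨hsa1, hsa2⟩ := abs_le.1 hsa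
    refine ⟨by linarith, ?_, by linarith, by linarith⟩
    intro t ht1 ht2
    have hεa : ε * a = (1 - s) * a ^ 2 + τ * a := by
      have : ε = a * (1 - s) + τ := by linarith
      rw [this]; ring
    have goal' : 4 * t * a - 2 * t ^ 2 ≤ -X ^ 2 + et m + 2 * X * a + (1 - s) * a ^ 2 := by
      by_cases hii : (i' : ℕ) = i
      · have hXa : a * (1 - s) = X := by
          rw [ha1, hτ, hee, hii]; ring
        have hapos : 0 < a := by
          by_contra hcon
          push Not at hcon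
          have := mul_nonpos_of_nonpos_of_nonneg hcon h1s.le
          linarith
        have ha2 : a ≤ 2 := by
          have : a * (1 / 2) ≤ a * (1 - s) := mul_le_mul_of_nonneg_left (by linarith) hapos.le
          linarith
        have hasq : a ^ 2 ≤ 4 := by
          have := pow_le_pow_left₀ hapos.le ha2 2
          norm_num at this
          exact this
        have hη : (s ^ 2 + s) * a ^ 2 ≤ et m := by
          have h1 : (s ^ 2 + s) * a ^ 2 ≤ (s ^ 2 + s) * 4 :=
            mul_le_mul_of_nonneg_left hasq (by positivity)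
          have h2 : s ^ 2 ≤ s := by
            rw [pow_two]; exact mul_le_of_le_one_right hs0.le (by linarith)
          have h3 : 8 * s ≤ et m := by
            rw [het, le_div_iff₀ (by positivity)]
            have : 8 * s * (8 * (m : ℝ) ^ 2) = 64 * (s * (m : ℝ) ^ 2) := by ring
            rw [this]; linarith
          linarith
        have e1 : -X ^ 2 + et m + 2 * X * a + (1 - s) * a ^ 2 =
            2 * a ^ 2 + et m - (s ^ 2 + s) * a ^ 2 := by
          rw [← hXa]; ring
        rw [e1]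
        have e2 : (a - t) ^ 2 = a ^ 2 - 2 * (t * a) + t ^ 2 := by ring
        have e3 : 4 * t * a = 4 * (t * a) := by ring
        have e4 := sq_nonneg (a - t)
        rw [e2] at e4
        rw [e3]
        linarith
      · have hε6 : 6 ≤ |ε - τ| := by
          rcases lt_or_gt_of_ne hii with h | h
          · have h1 : ((i' : ℕ) : ℝ) + 1 ≤ i := by exact_mod_cast h
            rw [abs_of_pos (by rw [hτ, hee]; linarith)]
            rw [hτ, hee]; linarith
          · have h1 : (i : ℝ) + 1 ≤ ((i' : ℕ) : ℝ) := by exact_mod_cast h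
            rw [abs_of_neg (by rw [hτ, hee]; linarith)]
            rw [hτ, hee]; linarith
        have ha6 : 6 ≤ |a| := by
          have : |a| * (1 - s) ≤ |a| * 1 := mul_le_mul_of_nonneg_left (by linarith) ha0
          linarith
        have hq : 6 * |a| ≤ (1 - s) * a ^ 2 := by
          have e1 : (1 - s) * a ^ 2 = (|a| * (1 - s)) * |a| := by
            rw [← sq_abs a]; ring
          rw [e1, habs1]
          exact mul_le_mul_of_nonneg_right hε6 ha0
        have hl1 : 4 * t * a - 2 * t ^ 2 ≤ 4 * |a| - 2 := by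
          have h1 : t * a ≤ |t| * |a| := by rw [← abs_mul]; exact le_abs_self _
          have h2 : |t| ≤ 1 := abs_le.2 ⟨ht1, ht2⟩
          have h3 : t ^ 2 = |t| ^ 2 := (sq_abs t).symm
          have h4 := abs_nonneg t
          have h5 := mul_nonneg (sub_nonneg.2 h2) (by linarith : (0 : ℝ) ≤ 4 * |a| - 2 * (1 + |t|))
          have h6 : (1 - |t|) * (4 * |a| - 2 * (1 + |t|)) =
              4 * |a| - 2 - 4 * (|t| * |a|) + 2 * |t| ^ 2 := by ring
          rw [h6] at h5
          have h7 : 4 * t * a = 4 * (t * a) := by ring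
          rw [h3, h7]
          linarith
        have hr1 : -(2 * |a|) ≤ 2 * X * a := by
          have h1 := neg_abs_le a
          have h2 : X * |a| ≤ 1 * |a| := mul_le_mul_of_nonneg_right hX1.le ha0
          have h3 : X * (-|a|) ≤ X * a := mul_le_mul_of_nonneg_left h1 hX0.le
          linarith
        have hr2 : X ^ 2 ≤ 1 := pow_le_one₀ hX0.le hX1.le
        linarith
    linarith
  · show _ ∈ G m r (Sum.inr (Sum.inr (Sum.inl k')))
    rw [mem_GZ, q0, q2]
    simp only [al']
    have hm1' : 1 ≤ m := by omega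
    have hg := gg_pos m
    have hE := EE_ge hm1' (k' : ℕ)
    have hHp := HH_pos m
    set ε := ee m i j
    obtain ⟨s, hs⟩ : ∃ s, s = sl m l := ⟨_, rfl⟩
    rw [← hs]
    obtain ⟨D, hD⟩ : ∃ D, D = s - (((k' : ℕ) : ℝ) + 1) * gg m := ⟨_, rfl⟩
    rw [← hD]
    have hDabs : gg m / 2 ≤ |D| := by
      have e1 : D = ((((l : ℤ) - (((k' : ℕ) : ℤ) + 1) : ℤ) : ℝ) + 1 / 2) * gg m := by
        rw [hD, hs]; unfold sl; push_cast; ring
      rw [e1, abs_mul, abs_of_pos hg]
      have h8 := mul_le_mul_of_nonneg_right (half_le_abs ((l : ℤ) - (((k' : ℕ) : ℤ) + 1))) hg.le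
      linarith
    have hDne : D ≠ 0 := by
      intro h
      rw [h, abs_zero] at hDabs
      linarith
    constructor
    · have : s = D + (((k' : ℕ) : ℝ) + 1) * gg m := by rw [hD]; ring
      rw [this]
      field_simp
      ring
    · rw [abs_div, abs_neg, abs_of_pos (by linarith : 0 < EE m k' + ε)]
      unfold RR
      rw [div_le_div_iff₀ (abs_pos.mpr hDne) hg]
      have h6 : EE m k' + ε ≤ EE m k' + HH m := by linarith
      have h7 : 0 < EE m k' + ε := by linarith
      have h8 := mul_le_mul h6 hDabs (by positivity) (by linarith)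
      linarith
  · show _ ∈ G m r (Sum.inr (Sum.inr (Sum.inr q)))
    rw [mem_GW, q0]
    simp only [al']

/-- the meeting parameter is unique -/
lemma hit2 {m r i j l : ℕ} (hl : l ≤ m) (e : Idx m r) {a : ℝ}
    (ha : bp' m i j + a • dv' m i j l ∈ G' m r e) : a = al' m r i j l e := by
  have hs1 := sl_le_one hl
  rcases e with j' | i' | k' | q
  · rw [mem_L, q0] at ha
    simp only [al']; exact ha.1
  · rw [mem_U, q0, q2] at ha
    simp only [al']
    rw [eq_div_iff (by linarith)]
    linarith [ha.1]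
  · change _ ∈ G m r (Sum.inr (Sum.inr (Sum.inl k'))) at ha
    rw [mem_GZ, q0, q2] at ha
    simp only [al']
    have hg := gg_pos m
    have hne : sl m l - (((k' : ℕ) : ℝ) + 1) * gg m ≠ 0 := by
      have e1 : sl m l - (((k' : ℕ) : ℝ) + 1) * gg m =
          ((((l : ℤ) - (((k' : ℕ) : ℤ) + 1) : ℤ) : ℝ) + 1 / 2) * gg m := by
        unfold sl; push_cast; ring
      rw [e1]
      have := half_le_abs ((l : ℤ) - (((k' : ℕ) : ℤ) + 1))
      apply mul_ne_zero _ hg.ne'
      intro h
      rw [h, abs_zero] at this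
      norm_num at this
    rw [eq_div_iff hne]
    linear_combination ha.1
  · change _ ∈ G m r (Sum.inr (Sum.inr (Sum.inr q))) at ha
    rw [mem_GW, q0] at ha
    simp only [al']; exact ha

end HitAux

/-- HIT -/
theorem hit : S_HIT := by
  intro m r i j l hm hi hj hl e
  exact ⟨HitAux.hit1 hm hi hj hl e, fun a ha => HitAux.hit2 hl e ha⟩

end Pool.Agent.R90.LT
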