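import Pool.Agent.R90.LT.Defs

set_option autoImplicit false

open Set

namespace Pool.Agent.R90.LT.SAux

open Pool.Agent.Results.MP_25490b_co.CubicPermutations

theorem inter {s s' D : ℕ} {X Y : Set (E 3)} (hX : SA s D X) (hY : SA s' D Y) :
    SA (s + s') D (X ∩ Y) := by
  obtain ⟨P, z, Φ, hP, rfl⟩ := hX
  obtain ⟨P', z', Φ', hP', rfl⟩ := hY
  refine ⟨Fin.append P P', Fin.append z z', fun b => Φ (fun k => b (Fin.castAdd s' k)) ∧
    Φ' (fun k => b (Fin.natAdd s k)), fun k => ?_, ?_⟩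
  · refine Fin.addCases (fun i => ?_) (fun i => ?_) k
    · rw [Fin.append_left]; exact hP i
    · rw [Fin.append_right]; exact hP' i
  · ext x
    simp only [Fin.append_left, Fin.append_right, mem_inter_iff, mem_ofPred_eq]

theorem union {s s' D : ℕ} {X Y : Set (E 3)} (hX : SA s D X) (hY : SA s' D Y) :
    SA (s + s') D (X ∪ Y) := by
  obtain ⟨P, z, Φ, hP, rfl⟩ := hX
  obtain ⟨P', z', Φ', hP', rfl⟩ := hY
  refine ⟨Fin.append P P', Fin.append z z', fun b => Φ (fun k => b (Fin.castAdd s' k)) ∨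
    Φ' (fun k => b (Fin.natAdd s k)), fun k => ?_, ?_⟩
  · refine Fin.addCases (fun i => ?_) (fun i => ?_) k
    · rw [Fin.append_left]; exact hP i
    · rw [Fin.append_right]; exact hP' i
  · ext x
    simp only [Fin.append_left, Fin.append_right, mem_union, mem_ofPred_eq]

theorem univ' (s D : ℕ) : SA s D Set.univ :=
  ⟨fun _ => 0, fun _ => True, fun _ => True, fun _ => by simp, by simp⟩

theorem mono {s s' D : ℕ} {X : Set (E 3)} (hX : SA s D X) (h : s ≤ s') : SA s' D X := by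
  have h1 := inter hX (univ' (s' - s) D)
  rwa [Set.inter_univ, Nat.add_sub_cancel' h] at h1

/-- affine functions plus a multiple of `x₀²` -/
def qf (c : Fin 5 → ℝ) (x : E 3) : ℝ :=
  c 0 * x 0 + c 1 * x 1 + c 2 * x 2 + c 3 + c 4 * x 0 ^ 2

open MvPolynomial in
noncomputable def qp (c : Fin 5 → ℝ) : MvPolynomial (Fin 3) ℝ :=
  MvPolynomial.C (c 0) * X 0 + MvPolynomial.C (c 1) * X 1 + MvPolynomial.C (c 2) * X 2 +
    MvPolynomial.C (c 3) + MvPolynomial.C (c 4) * X 0 ^ 2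

open MvPolynomial in
theorem eval_qp (c : Fin 5 → ℝ) (x : E 3) : eval (fun i => x i) (qp c) = qf c x := by
  simp [qp, qf]

open MvPolynomial in
theorem deg_qp (c : Fin 5 → ℝ) : (qp c).totalDegree ≤ 2 := by
  have h1 : ∀ (a : ℝ) (i : Fin 3), (MvPolynomial.C a * X i : MvPolynomial (Fin 3) ℝ).totalDegree ≤ 2 := by
    intro a i
    refine (totalDegree_mul _ _).trans ?_
    rw [totalDegree_C, totalDegree_X]
    norm_num
  have h2 : ∀ (a : ℝ) (i : Fin 3), (MvPolynomial.C a * X i ^ 2 : MvPolynomial (Fin 3) ℝ).totalDegree ≤ 2 := by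
    intro a i
    refine (totalDegree_mul _ _).trans ?_
    rw [totalDegree_C, totalDegree_X_pow]
  have h3 : ∀ a : ℝ, (MvPolynomial.C a : MvPolynomial (Fin 3) ℝ).totalDegree ≤ 2 := by
    intro a
    rw [totalDegree_C]
    norm_num
  have h4 : ∀ p q : MvPolynomial (Fin 3) ℝ, p.totalDegree ≤ 2 → q.totalDegree ≤ 2 →
      (p + q).totalDegree ≤ 2 := fun p q hp hq => (totalDegree_add p q).trans (max_le hp hq)
  exact h4 _ _ (h4 _ _ (h4 _ _ (h4 _ _ (h1 _ _) (h1 _ _)) (h1 _ _)) (h3 _)) (h2 _ _)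

theorem sa_le (c : Fin 5 → ℝ) : SA 1 2 {x | qf c x ≤ 0} := by
  refine ⟨fun _ => qp c, fun _ => False, fun b => ¬ b 0, fun _ => deg_qp c, ?_⟩
  ext x
  simp only [eval_qp, mem_ofPred_eq, false_and, not_false_eq_true, true_and, false_or, not_lt]

theorem sa_eq (c : Fin 5 → ℝ) : SA 1 2 {x | qf c x = 0} := by
  refine ⟨fun _ => qp c, fun _ => True, fun b => b 0, fun _ => deg_qp c, ?_⟩
  ext x
  simp only [eval_qp, mem_ofPred_eq, true_and, not_true_eq_false, false_and, or_false]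

theorem af_qf (a : Fin 4 → ℝ) (x : E 3) : af a x = qf ![a 0, a 1, a 2, a 3, 0] x := by
  simp [af, qf]

theorem sa_afle (a : Fin 4 → ℝ) : SA 1 2 {x | af a x ≤ 0} := by
  simp only [af_qf]
  exact sa_le _

theorem sa_afeq (a : Fin 4 → ℝ) : SA 1 2 {x | af a x = 0} := by
  simp only [af_qf]
  exact sa_eq _

theorem sa_all : ∀ (k : ℕ) (b : Fin k → Fin 4 → ℝ), SA k 2 {x | ∀ j, af (b j) x ≤ 0} := by
  intro k
  induction k with
  | zero =>
    intro b
    have : {x : E 3 | ∀ j : Fin 0, af (b j) x ≤ 0} = Set.univ := by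
      ext x
      simp
    rw [this]
    exact univ' 0 2
  | succ k ih =>
    intro b
    have : {x : E 3 | ∀ j : Fin (k + 1), af (b j) x ≤ 0} =
        {x | af (b 0) x ≤ 0} ∩ {x | ∀ j : Fin k, af (b j.succ) x ≤ 0} := by
      ext x
      simp only [mem_ofPred_eq, mem_inter_iff, Fin.forall_fin_succ]
    rw [this]
    exact mono (inter (sa_afle _) (ih _)) (by omega)

theorem sa_PS {k : ℕ} (a : Fin 4 → ℝ) (b : Fin k → Fin 4 → ℝ) : SA (1 + k) 2 (PS a b) :=
  inter (sa_afeq a) (sa_all k b)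

theorem sa_Box (M : ℝ) : SA 6 2 (Box M) := by
  have h := sa_all 6 ![![1, 0, 0, -M], ![-1, 0, 0, -M], ![0, 1, 0, -M], ![0, -1, 0, -M],
    ![0, 0, 1, -M], ![0, 0, -1, -M]]
  have e : Box M = {x | ∀ j, af (![![1, 0, 0, -M], ![-1, 0, 0, -M], ![0, 1, 0, -M],
      ![0, -1, 0, -M], ![0, 0, 1, -M], ![0, 0, -1, -M]] j) x ≤ 0} := by
    ext x
    simp only [Box, mem_ofPred_eq, Fin.forall_fin_succ, abs_le]
    simp [af]
    constructor
    · rintro ⟨⟨h1, h2⟩, ⟨h3, h4⟩, h5, h6⟩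
      refine ⟨?_, ?_, ?_, ?_, ?_, ?_⟩ <;> linarith
    · rintro ⟨h1, h2, h3, h4, h5, h6⟩
      refine ⟨⟨?_, ?_⟩, ⟨?_, ?_⟩, ?_, ?_⟩ <;> linarith
  rw [e]
  exact h

/-- the region above the curve -/
theorem sa_U (τ : ℝ) : SA 7 2 {x : E 3 | ∀ t : Icc (-1 : ℝ) 1,
    af ![4 * (t : ℝ) + τ, -1, 0, -2 * (t : ℝ) ^ 2] x ≤ 0} := by
  have e : {x : E 3 | ∀ t : Icc (-1 : ℝ) 1,
      af ![4 * (t : ℝ) + τ, -1, 0, -2 * (t : ℝ) ^ 2] x ≤ 0} =
      (({x : E 3 | qf ![1, 0, 0, -1, 0] x ≤ 0} ∩ {x : E 3 | qf ![-1, 0, 0, -1, 0] x ≤ 0}) ∩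
        {x : E 3 | qf ![τ, -1, 0, 0, 2] x ≤ 0}) ∪
      (({x : E 3 | qf ![-1, 0, 0, 1, 0] x ≤ 0} ∩ {x : E 3 | qf ![4 + τ, -1, 0, -2, 0] x ≤ 0}) ∪
      ({x : E 3 | qf ![1, 0, 0, 1, 0] x ≤ 0} ∩ {x : E 3 | qf ![-4 + τ, -1, 0, -2, 0] x ≤ 0})) := by
    ext x
    simp only [mem_union, mem_inter_iff, mem_ofPred_eq, qf, af, Matrix.cons_val]
    obtain ⟨y, hy⟩ : ∃ y, y = x 0 := ⟨_, rfl⟩
    obtain ⟨w, hw⟩ : ∃ w, w = x 1 := ⟨_, rfl⟩
    rw [← hy, ← hw]
    constructor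
    · intro h
      rcases le_or_gt y 1 with h1 | h1
      · rcases le_or_gt (-1) y with h2 | h2
        · left
          have := h ⟨y, h2, h1⟩
          simp only at this
          refine ⟨⟨by linarith, by linarith⟩, by nlinarith⟩
        · right
          right
          have := h ⟨-1, by norm_num, by norm_num⟩
          simp only at this
          refine ⟨by linarith, by nlinarith⟩
      · right
        left
        have := h ⟨1, by norm_num, by norm_num⟩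
        simp only at this
        refine ⟨by linarith, by nlinarith⟩
    · rintro (⟨⟨h1, h2⟩, h3⟩ | ⟨h1, h2⟩ | ⟨h1, h2⟩) ⟨t, ht1, ht2⟩
      · simp only
        nlinarith [sq_nonneg (y - t)]
      · simp only
        nlinarith [mul_nonneg (by linarith : (0 : ℝ) ≤ 1 - t)
          (by linarith : (0 : ℝ) ≤ 4 * y - 2 * (1 + t))]
      · simp only
        nlinarith [mul_nonneg (by linarith : (0 : ℝ) ≤ 1 + t)
          (by linarith : (0 : ℝ) ≤ -4 * y - 2 * (1 - t))]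
  rw [e]
  exact union (inter (inter (sa_le _) (sa_le _)) (sa_le _))
    (union (inter (sa_le _) (sa_le _)) (inter (sa_le _) (sa_le _)))

theorem PS_sum {κ : Type} {k : ℕ} (a : Fin 4 → ℝ) (f : κ → Fin 4 → ℝ) (g : Fin k → Fin 4 → ℝ) :
    PS a (Sum.elim f g) = PS a g ∩ {x | ∀ t, af (f t) x ≤ 0} := by
  ext x
  simp only [PS, mem_inter_iff, mem_ofPred_eq, Sum.forall, Sum.elim_inl, Sum.elim_inr]
  tauto

end Pool.Agent.R90.LT.SAux

namespace Pool.Agent.R90.LT

open SAux Pool.Agent.Results.MP_25490b_co.CubicPermutations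

theorem sa : S_SA := by
  intro m r e M
  rcases e with j | i | k | q
  · exact mono (inter (sa_PS _ _) (sa_Box M)) (by norm_num)
  · have h : G' m r (Sum.inr (Sum.inl i)) = _ := PS_sum _ _ _
    rw [h]
    exact mono (inter (inter (sa_PS _ _) (sa_U _)) (sa_Box M)) (by norm_num)
  · exact mono (inter (sa_PS _ _) (sa_Box M)) (by norm_num)
  · exact mono (inter (sa_PS _ _) (sa_Box M)) (by norm_num)

end Pool.Agent.R90.LT
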