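import Pool.Agent.R90.LT.Defs

/-!
# Piece TC (helper962): transversals inducing different orders are in different components
-/

open Set Topology

namespace Pool.Agent.R90.LT

open Pool.Agent.Results.MP_25490b_co.CubicPermutations

namespace TCaux

lemma rep {p q : PL} (h : mkLine p = mkLine q) :
    ∃ a t : ℝ, t ≠ 0 ∧ q.1.1 = p.1.1 + a • p.1.2 ∧ q.1.2 = t • p.1.2 :=
  Quotient.exact h

lemma of_rep {p q : PL} (a t : ℝ) (ht : t ≠ 0) (h1 : q.1.1 = p.1.1 + a • p.1.2)
    (h2 : q.1.2 = t • p.1.2) : mkLine p = mkLine q :=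
  Quotient.sound (s := lineSetoid) ⟨a, t, ht, h1, h2⟩

/-- the opposite orientation -/
def opp (p : PL) : PL := ⟨(p.1.1, -p.1.2), neg_ne_zero.2 p.2⟩

lemma mk_opp (p : PL) : mkLine (opp p) = mkLine p :=
  (of_rep (p := p) (q := opp p) 0 (-1) (by norm_num) (by simp [opp]) (by simp [opp])).symm

variable {n : ℕ} {F : Fin n → Set (E 3)}

/-- order of the line of a pair -/
def pre (F : Fin n → Set (E 3)) (i j : Fin n) (p : PL) : Prop := ord F p.1.1 p.1.2 i j

lemma pre_opp {i j : Fin n} {p : PL} (h : pre F i j p) : pre F j i (opp p) := by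
  obtain ⟨hij, a, b, hab, ha, hb⟩ := h
  refine ⟨hij.symm, -b, -a, by linarith, ?_, ?_⟩
  · simpa [opp] using hb
  · simpa [opp] using ha

lemma pre_pos {i j : Fin n} {p q : PL} {a t : ℝ} (ht : 0 < t)
    (h1 : q.1.1 = p.1.1 + a • p.1.2) (h2 : q.1.2 = t • p.1.2) (h : pre F i j q) :
    pre F i j p := by
  obtain ⟨hij, α, β, hab, ha, hb⟩ := h
  have e : ∀ γ : ℝ, q.1.1 + γ • q.1.2 = p.1.1 + (a + γ * t) • p.1.2 := by
    intro γ
    rw [h1, h2]; module
  rw [e] at ha hb
  exact ⟨hij, a + α * t, a + β * t, by nlinarith, ha, hb⟩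

lemma pre_neg {i j : Fin n} {p q : PL} {a t : ℝ} (ht : t < 0)
    (h1 : q.1.1 = p.1.1 + a • p.1.2) (h2 : q.1.2 = t • p.1.2) (h : pre F i j q) :
    pre F j i p := by
  obtain ⟨hij, α, β, hab, ha, hb⟩ := h
  have e : ∀ γ : ℝ, q.1.1 + γ • q.1.2 = p.1.1 + (a + γ * t) • p.1.2 := by
    intro γ
    rw [h1, h2]; module
  rw [e] at ha hb
  exact ⟨hij.symm, a + β * t, a + α * t, by nlinarith, hb, ha⟩

lemma pre_of_mk {i j : Fin n} {p q : PL} (h : mkLine p = mkLine q) {i0 i1 : Fin n}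
    (hc : ∀ i, Convex ℝ (F i)) (hdis : ∀ i j, i ≠ j → Disjoint (F i) (F j))
    (hp : pre F i0 i1 p) (hq : pre F i0 i1 q) (hij : pre F i j q) : pre F i j p := by
  obtain ⟨a, t, ht, h1, h2⟩ := rep h
  rcases lt_or_gt_of_ne ht with h0 | h0
  · exact absurd (pre_neg h0 h1 h2 hq) (ord_asymm hc hdis hp)
  · exact pre_pos h0 h1 h2 hij

lemma on_line {x v y : E 3} (hv : v ≠ 0) (h : (‖v‖ ^ 2) • (y - x) = (inner ℝ v (y - x)) • v) :
    y = x + (inner ℝ v (y - x) / ‖v‖ ^ 2) • v := by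
  have hn : ‖v‖ ^ 2 ≠ 0 := by
    have := norm_pos_iff.2 hv
    positivity
  rw [div_eq_inv_mul, mul_smul, ← h, smul_smul, inv_mul_cancel₀ hn, one_smul]
  abel

lemma closed_pre (hF : ∀ i, IsCompact (F i)) (hdis : ∀ i j, i ≠ j → Disjoint (F i) (F j))
    (i j : Fin n) : IsClosed {p : PL | pre F i j p} := by
  by_cases hij : i = j
  · have : {p : PL | pre F i j p} = ∅ := by
      ext p
      simp only [Set.mem_ofPred_eq, Set.mem_empty_iff_false, iff_false]
      exact fun h => h.1 hij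
    rw [this]
    exact isClosed_empty
  have := isCompact_iff_compactSpace.1 (hF i)
  have := isCompact_iff_compactSpace.1 (hF j)
  let Z : Set ((F i × F j) × PL) := {q |
    (‖q.2.1.2‖ ^ 2) • ((q.1.1 : E 3) - q.2.1.1) =
      (inner ℝ q.2.1.2 ((q.1.1 : E 3) - q.2.1.1)) • q.2.1.2 ∧
    (‖q.2.1.2‖ ^ 2) • ((q.1.2 : E 3) - q.2.1.1) =
      (inner ℝ q.2.1.2 ((q.1.2 : E 3) - q.2.1.1)) • q.2.1.2 ∧
    inner ℝ q.2.1.2 (q.1.1 : E 3) ≤ inner ℝ q.2.1.2 (q.1.2 : E 3)}
  have hZ : IsClosed Z := by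
    have h3 : IsClosed {q : (F i × F j) × PL |
        (inner ℝ q.2.1.2 (q.1.1 : E 3) : ℝ) ≤ inner ℝ q.2.1.2 (q.1.2 : E 3)} :=
      isClosed_le (by fun_prop) (by fun_prop)
    refine IsClosed.inter ?_ (IsClosed.inter ?_ h3)
    · apply isClosed_eq <;> fun_prop
    · apply isClosed_eq <;> fun_prop
  have himg : {p : PL | pre F i j p} = Prod.snd '' Z := by
    ext p
    simp only [Set.mem_ofPred_eq, Set.mem_image]
    constructor
    · rintro ⟨-, a, b, hab, ha, hb⟩
      refine ⟨((⟨_, ha⟩, ⟨_, hb⟩), p), ⟨?_, ?_, ?_⟩, rfl⟩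
      · simp only [add_sub_cancel_left, inner_smul_right, real_inner_self_eq_norm_sq]
        module
      · simp only [add_sub_cancel_left, inner_smul_right, real_inner_self_eq_norm_sq]
        module
      · simp only [inner_add_right, inner_smul_right, real_inner_self_eq_norm_sq]
        have : 0 ≤ ‖p.1.2‖ ^ 2 := by positivity
        nlinarith
    · rintro ⟨⟨⟨⟨y, hy⟩, ⟨z, hz⟩⟩, p'⟩, ⟨h1, h2, h3⟩, rfl⟩
      simp only at h1 h2 h3 ⊢
      have e1 := on_line p'.2 h1
      have e2 := on_line p'.2 h2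
      have hn : 0 < ‖p'.1.2‖ ^ 2 := by
        have := norm_pos_iff.2 p'.2
        positivity
      have hle : inner ℝ p'.1.2 (y - p'.1.1) / ‖p'.1.2‖ ^ 2 ≤
          inner ℝ p'.1.2 (z - p'.1.1) / ‖p'.1.2‖ ^ 2 := by
        apply div_le_div_of_nonneg_right _ hn.le
        rw [inner_sub_right, inner_sub_right]
        linarith
      refine ⟨hij, _, _, lt_of_le_of_ne hle ?_, by rw [← e1]; exact hy, by rw [← e2]; exact hz⟩
      intro he
      have : y = z := by rw [e1, e2, he]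
      subst this
      exact Set.disjoint_left.mp (hdis i j hij) hy hz
  rw [himg]
  exact isClosedMap_snd_of_compactSpace _ hZ

/-- lines for which `i` comes before `j` if `i0` comes before `i1` -/
def B (F : Fin n → Set (E 3)) (i0 i1 i j : Fin n) : Set Line :=
  {l | ∃ p, mkLine p = l ∧ pre F i0 i1 p ∧ pre F i j p}

lemma closed_B (hF : ∀ i, IsCompact (F i)) (hdis : ∀ i j, i ≠ j → Disjoint (F i) (F j))
    (i0 i1 i j : Fin n) : IsClosed (B F i0 i1 i j) := by
  have hpre : mkLine ⁻¹' B F i0 i1 i j =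
      ({p : PL | pre F i0 i1 p} ∩ {p : PL | pre F i j p}) ∪
      ({p : PL | pre F i1 i0 p} ∩ {p : PL | pre F j i p}) := by
    ext p
    simp only [B, Set.mem_preimage, Set.mem_ofPred_eq, Set.mem_union, Set.mem_inter_iff]
    constructor
    · rintro ⟨q, hq, h1, h2⟩
      obtain ⟨a, t, ht, e1, e2⟩ := rep hq.symm
      rcases lt_or_gt_of_ne ht with h0 | h0
      · right; exact ⟨pre_neg h0 e1 e2 h1, pre_neg h0 e1 e2 h2⟩
      · left; exact ⟨pre_pos h0 e1 e2 h1, pre_pos h0 e1 e2 h2⟩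
    · rintro (⟨h1, h2⟩ | ⟨h1, h2⟩)
      · exact ⟨p, rfl, h1, h2⟩
      · exact ⟨opp p, mk_opp p, pre_opp h1, pre_opp h2⟩
  have hcl : IsClosed (mkLine ⁻¹' B F i0 i1 i j) := by
    rw [hpre]
    exact ((closed_pre hF hdis i0 i1).inter (closed_pre hF hdis i j)).union
      ((closed_pre hF hdis i1 i0).inter (closed_pre hF hdis j i))
  have hq : IsQuotientMap mkLine := isQuotientMap_quot_mk
  exact hq.isClosed_preimage.1 hcl

lemma clopen (hF : ∀ i, IsCompact (F i) ∧ Convex ℝ (F i))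
    (hdis : ∀ i j, i ≠ j → Disjoint (F i) (F j)) (i0 i1 i j : Fin n) (h01 : i0 ≠ i1)
    (hij : i ≠ j) : IsClopen ((↑) ⁻¹' B F i0 i1 i j : Set (T F)) := by
  have c1 : IsClosed ((↑) ⁻¹' B F i0 i1 i j : Set (T F)) :=
    (closed_B (fun i => (hF i).1) hdis i0 i1 i j).preimage continuous_subtype_val
  have c2 : IsClosed ((↑) ⁻¹' B F i0 i1 j i : Set (T F)) :=
    (closed_B (fun i => (hF i).1) hdis i0 i1 j i).preimage continuous_subtype_val
  refine ⟨c1, ?_⟩
  have e : ((↑) ⁻¹' B F i0 i1 i j : Set (T F)) = ((↑) ⁻¹' B F i0 i1 j i : Set (T F))ᶜ := by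
    ext l
    simp only [Set.mem_preimage, Set.mem_compl_iff]
    constructor
    · rintro ⟨p, hp, h1, h2⟩ ⟨q, hq, h3, h4⟩
      have h5 := pre_of_mk (hp.trans hq.symm) (fun i => (hF i).2) hdis h1 h3 h4
      exact ord_asymm (fun i => (hF i).2) hdis h2 h5
    · intro hn
      obtain ⟨p, hp⟩ : ∃ p, mkLine p = (l : Line) := Quotient.exists_rep _
      have hm : ∀ (q : PL), mkLine q = (l : Line) → ∀ i, ∃ a : ℝ, q.1.1 + a • q.1.2 ∈ F i := by
        intro q hq i
        obtain ⟨r, hr, a, ha⟩ := l.2 i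
        obtain ⟨b, t, ht, e1, e2⟩ := rep (hq.trans hr.symm)
        refine ⟨b + a * t, ?_⟩
        rw [e1, e2] at ha
        have e3 : q.1.1 + (b + a * t) • q.1.2 = q.1.1 + b • q.1.2 + a • t • q.1.2 := by module
        rw [e3]
        exact ha
      have hor : ∃ q, mkLine q = (l : Line) ∧ pre F i0 i1 q := by
        rcases ord_total hdis (hm p hp) h01 with h | h
        · exact ⟨p, hp, h⟩
        · exact ⟨opp p, (mk_opp p).trans hp, pre_opp h⟩
      obtain ⟨q, hq, h1⟩ := hor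
      rcases ord_total hdis (hm q hq) hij with h | h
      · exact ⟨q, hq, h1, h⟩
      · exact absurd ⟨q, hq, h1, h⟩ hn
  rw [e]
  exact c2.isOpen_compl

end TCaux

open TCaux in
theorem tc : S_TC := by
  intro n F hF hdis κ _ x v hv hit i0 i1 h01 hinj
  let L : κ → T F := fun k => ⟨mkLine ⟨(x k, v k), hv k⟩, fun i => ⟨⟨(x k, v k), hv k⟩, rfl, hit k i⟩⟩
  have hinjL : Function.Injective (fun k => (L k : ConnectedComponents (T F))) := by
    have key : ∀ k k', (L k : ConnectedComponents (T F)) = (L k' : ConnectedComponents (T F)) →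
        ∀ i j, ord F (x k) (v k) i j → ord F (x k') (v k') i j := by
      intro k k' hk i j h
      have hcl := clopen hF hdis i0 i1 i j (h01 k).1 h.1
      have hmem : L k ∈ ((↑) ⁻¹' B F i0 i1 i j : Set (T F)) :=
        ⟨⟨(x k, v k), hv k⟩, rfl, h01 k, h⟩
      have hsub := hcl.connectedComponent_subset hmem
      rw [ConnectedComponents.coe_eq_coe.1 hk] at hsub
      obtain ⟨p, hp, h1, h2⟩ := hsub (mem_connectedComponent (x := L k'))
      exact pre_of_mk (p := ⟨(x k', v k'), hv k'⟩) hp.symm (fun i => (hF i).2) hdis (h01 k') h1 h2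
    intro k k' hk
    apply hinj
    funext i j
    exact propext ⟨key k k' hk i j, key k' k hk.symm i j⟩
  have := ENat.card_le_card_of_injective hinjL
  rw [ENat.card_eq_coe_fintype_card] at this
  exact this

end Pool.Agent.R90.LT
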